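import Mathlib

/-!
# H92I.Bc: extension of scalars from a field to a bigger field preserves exactness of matrices over polynomial rings
-/

set_option autoImplicit false

open MvPolynomial TensorProduct

namespace H92I

universe u

variable {k : Type} {K : Type u} [Field k] [Field K] [Algebra k K] {n : ℕ}

/-- The matrix of f, read over the bigger field. -/
noncomputable def ex (K : Type u) [Field K] [Algebra k K] {a b : ℕ}
    (f : (Fin b → MvPolynomial (Fin n) k) →ₗ[MvPolynomial (Fin n) k] (Fin a → MvPolynomial (Fin n) k)) :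
    (Fin b → MvPolynomial (Fin n) K) →ₗ[MvPolynomial (Fin n) K] (Fin a → MvPolynomial (Fin n) K) :=
  Matrix.toLin' (Matrix.of fun i j => MvPolynomial.map (algebraMap k K) (f (Pi.single j 1) i))

theorem ex_single {a b : ℕ}
    (f : (Fin b → MvPolynomial (Fin n) k) →ₗ[MvPolynomial (Fin n) k] (Fin a → MvPolynomial (Fin n) k)) (i : Fin a) (j : Fin b) :
    ex K f (Pi.single j 1) i = MvPolynomial.map (algebraMap k K) (f (Pi.single j 1) i) := by
  rw [ex, Matrix.toLin'_apply]
  simp [Matrix.mulVec_single]

attribute [local instance] MvPolynomial.algebraMvPolynomial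

theorem flat_bc : Module.Flat (MvPolynomial (Fin n) k) (MvPolynomial (Fin n) K) := by
  have h : IsBaseChange (MvPolynomial (Fin n) k) (IsScalarTower.toAlgHom k K (MvPolynomial (Fin n) K)).toLinearMap :=
    Algebra.IsPushout.out
  exact Module.Flat.isBaseChange k (MvPolynomial (Fin n) k) K (MvPolynomial (Fin n) K) h

theorem ex_comm {a b : ℕ}
    (f : (Fin b → MvPolynomial (Fin n) k) →ₗ[MvPolynomial (Fin n) k] (Fin a → MvPolynomial (Fin n) k))
    (x : MvPolynomial (Fin n) K ⊗[MvPolynomial (Fin n) k] (Fin b → MvPolynomial (Fin n) k)) :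
    ex K f (piScalarRight (MvPolynomial (Fin n) k) (MvPolynomial (Fin n) K) (MvPolynomial (Fin n) K) (Fin b) x) =
      piScalarRight (MvPolynomial (Fin n) k) (MvPolynomial (Fin n) K) (MvPolynomial (Fin n) K) (Fin a)
        (f.lTensor (MvPolynomial (Fin n) K) x) := by
  induction x using TensorProduct.induction_on with
  | zero => simp
  | add x y hx hy => rw [map_add, map_add, hx, hy, map_add, map_add]
  | tmul s v =>
    rw [LinearMap.lTensor_tmul, piScalarRight_apply, piScalarRight_apply, piScalarRightHom_tmul, piScalarRightHom_tmul, ex,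
      Matrix.toLin'_apply]
    ext1 i
    have h : v = ∑ l, v l • (Pi.single l (1 : MvPolynomial (Fin n) k) : Fin b → MvPolynomial (Fin n) k) := by
      ext1 x
      simp [Finset.sum_apply, Pi.single_apply]
    have h2 : f v i = ∑ l, v l * f (Pi.single l 1) i := by
      conv_lhs => rw [h]
      simp [map_sum, Finset.sum_apply]
    rw [h2, Finset.sum_smul]
    simp only [Matrix.mulVec, dotProduct, Matrix.of_apply]
    refine Finset.sum_congr rfl fun l _ => ?_
    simp only [Algebra.smul_def, map_mul]
    rw [MvPolynomial.algebraMap_def]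
    ring

theorem ex_exact {a b c : ℕ}
    (f : (Fin b → MvPolynomial (Fin n) k) →ₗ[MvPolynomial (Fin n) k] (Fin a → MvPolynomial (Fin n) k))
    (g : (Fin c → MvPolynomial (Fin n) k) →ₗ[MvPolynomial (Fin n) k] (Fin b → MvPolynomial (Fin n) k))
    (h : LinearMap.range g = LinearMap.ker f) : LinearMap.range (ex K g) = LinearMap.ker (ex K f) := by
  have := flat_bc (k := k) (K := K) (n := n)
  have h1 : Function.Exact g f := LinearMap.exact_iff.2 h.symm
  have h2 := Module.Flat.lTensor_exact (MvPolynomial (Fin n) K) h1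
  ext v
  constructor
  · rintro ⟨w, rfl⟩
    obtain ⟨x, rfl⟩ := (piScalarRight (MvPolynomial (Fin n) k) (MvPolynomial (Fin n) K) (MvPolynomial (Fin n) K) (Fin c)).surjective w
    rw [LinearMap.mem_ker, ex_comm, ex_comm, h2.apply_apply_eq_zero, map_zero]
  · intro hv
    obtain ⟨x, rfl⟩ := (piScalarRight (MvPolynomial (Fin n) k) (MvPolynomial (Fin n) K) (MvPolynomial (Fin n) K) (Fin b)).surjective v
    rw [LinearMap.mem_ker, ex_comm] at hv
    have hv2 : f.lTensor (MvPolynomial (Fin n) K) x = 0 := by
      have := (piScalarRight (MvPolynomial (Fin n) k) (MvPolynomial (Fin n) K) (MvPolynomial (Fin n) K) (Fin a)).injective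
        (hv.trans (map_zero _).symm)
      exact this
    obtain ⟨y, hy⟩ := (h2 x).1 hv2
    exact ⟨_, by rw [ex_comm, hy]⟩

end H92I
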