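import Mathlib

/-!
# H92I.Gr: the grading of the cokernel of a homogeneous matrix over a polynomial ring
-/

set_option autoImplicit false

open MvPolynomial

namespace H92I

universe u

variable {K : Type u} [Field K] {n : ℕ}

/-- The homogeneous component of integral degree (0 in negative degrees). -/
noncomputable def hc (e : ℤ) : MvPolynomial (Fin n) K →+ MvPolynomial (Fin n) K :=
  if 0 ≤ e then (homogeneousComponent e.toNat).toAddMonoidHom else 0

theorem hc_of_nonneg {e : ℤ} (he : 0 ≤ e) (p : MvPolynomial (Fin n) K) : hc e p = homogeneousComponent e.toNat p := by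
  simp [hc, he]

theorem hc_of_neg {e : ℤ} (he : e < 0) (p : MvPolynomial (Fin n) K) : hc e p = 0 := by
  simp [hc, not_le.2 he]

theorem hc_natCast (e : ℕ) (p : MvPolynomial (Fin n) K) : hc (e : ℤ) p = homogeneousComponent e p := by
  rw [hc_of_nonneg (by positivity)]
  simp

theorem hc_hc (i j : ℤ) (p : MvPolynomial (Fin n) K) : hc i (hc j p) = if i = j then hc j p else 0 := by
  by_cases hj : 0 ≤ j
  · by_cases hi : 0 ≤ i
    · rw [hc_of_nonneg hi, hc_of_nonneg hj, homogeneousComponent_of_mem (homogeneousComponent_mem _ _)]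
      by_cases hij : i = j
      · simp [hij]
      · have : i.toNat ≠ j.toNat := by omega
        simp [hij, this]
    · rw [hc_of_neg (not_le.1 hi)]
      have : i ≠ j := by omega
      simp [this]
  · rw [hc_of_neg (not_le.1 hj)]
    simp

attribute [local instance] MvPolynomial.gradedAlgebra in
theorem comp_mul (e m : ℕ) (p w : MvPolynomial (Fin n) K) (hp : p.IsHomogeneous e) :
    homogeneousComponent m (p * w) = if e ≤ m then p * homogeneousComponent (m - e) w else 0 := by
  have h := DirectSum.coe_decompose_mul_of_left_mem (𝒜 := homogeneousSubmodule (Fin n) K) (a := p) (b := w) (i := e) m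
    ((mem_homogeneousSubmodule _ _).2 hp)
  have h1 : ∀ (q : MvPolynomial (Fin n) K) (l : ℕ),
      (DirectSum.decompose (homogeneousSubmodule (Fin n) K) q l : MvPolynomial (Fin n) K) = homogeneousComponent l q :=
    fun q l => decomposition.decompose'_apply q l
  rw [h1] at h
  simp only [h1] at h
  exact h

theorem hc_mul (e : ℕ) (i : ℤ) (p w : MvPolynomial (Fin n) K) (hp : p.IsHomogeneous e) :
    hc (i + e) (p * w) = p * hc i w := by
  by_cases hi : 0 ≤ i
  · rw [hc_of_nonneg hi, hc_of_nonneg (by positivity), comp_mul e _ p w hp]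
    have h1 : e ≤ (i + e).toNat := by omega
    have h2 : (i + e).toNat - e = i.toNat := by omega
    rw [if_pos h1, h2]
  · rw [hc_of_neg (not_le.1 hi)]
    by_cases h2 : 0 ≤ i + e
    · rw [hc_of_nonneg h2, comp_mul e _ p w hp, if_neg (by omega)]
      simp
    · rw [hc_of_neg (not_le.1 h2)]
      simp

/-- The homogeneous component of degree j of a vector in the free module with generators in degree D. -/
noncomputable def hv (D j : ℤ) (m : ℕ) : (Fin m → MvPolynomial (Fin n) K) →+ (Fin m → MvPolynomial (Fin n) K) where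
  toFun v := fun a => hc (j - D) (v a)
  map_zero' := by ext1 a; simp
  map_add' v w := by ext1 a; simp

theorem hv_apply (D j : ℤ) (m : ℕ) (v : Fin m → MvPolynomial (Fin n) K) (a : Fin m) : hv D j m v a = hc (j - D) (v a) :=
  rfl

theorem lin_apply {b c : ℕ} (f : (Fin c → MvPolynomial (Fin n) K) →ₗ[MvPolynomial (Fin n) K] (Fin b → MvPolynomial (Fin n) K))
    (w : Fin c → MvPolynomial (Fin n) K) (a : Fin b) : f w a = ∑ l, w l * f (Pi.single l 1) a := by
  have h : w = ∑ l, w l • (Pi.single l (1 : MvPolynomial (Fin n) K) : Fin c → MvPolynomial (Fin n) K) := by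
    ext1 x
    simp [Finset.sum_apply, Pi.single_apply]
  conv_lhs => rw [h]
  simp [map_sum, Finset.sum_apply]

theorem hv_lin {b c : ℕ} (f : (Fin c → MvPolynomial (Fin n) K) →ₗ[MvPolynomial (Fin n) K] (Fin b → MvPolynomial (Fin n) K))
    (e : ℕ) (hf : ∀ a l, (f (Pi.single l 1) a).IsHomogeneous e) (D j : ℤ) (w : Fin c → MvPolynomial (Fin n) K) :
    hv D j b (f w) = f (hv (D + e) j c w) := by
  ext1 a
  rw [hv_apply, lin_apply f w a, lin_apply f _ a, map_sum]
  refine Finset.sum_congr rfl fun l _ => ?_
  rw [hv_apply, mul_comm (w l), mul_comm (hc _ (w l))]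
  have := hc_mul e (j - (D + e)) (f (Pi.single l 1) a) (w l) (hf a l)
  rw [← this]
  congr 2
  ring

/-- The component of degree j on the cokernel. -/
noncomputable def qv {b : ℕ} (N : Submodule (MvPolynomial (Fin n) K) (Fin b → MvPolynomial (Fin n) K)) (D j : ℤ)
    (h : ∀ v ∈ N, hv D j b v ∈ N) :
    ((Fin b → MvPolynomial (Fin n) K) ⧸ N) →+ ((Fin b → MvPolynomial (Fin n) K) ⧸ N) :=
  QuotientAddGroup.map N.toAddSubgroup N.toAddSubgroup (hv D j b) h

theorem qv_mk {b : ℕ} (N : Submodule (MvPolynomial (Fin n) K) (Fin b → MvPolynomial (Fin n) K)) (D j : ℤ)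
    (h : ∀ v ∈ N, hv D j b v ∈ N) (v : Fin b → MvPolynomial (Fin n) K) :
    qv N D j h (Submodule.Quotient.mk v) = Submodule.Quotient.mk (hv D j b v) := rfl

theorem graded_coker {b c : ℕ}
    (f : (Fin c → MvPolynomial (Fin n) K) →ₗ[MvPolynomial (Fin n) K] (Fin b → MvPolynomial (Fin n) K))
    (e : ℕ) (hf : ∀ a l, (f (Pi.single l 1) a).IsHomogeneous e) (D : ℤ) :
    ∃ G : ℤ → AddSubgroup ((Fin b → MvPolynomial (Fin n) K) ⧸ LinearMap.range f),
      DirectSum.IsInternal G ∧
      (∀ (l : ℕ) (j : ℤ) (p : MvPolynomial (Fin n) K) (m : (Fin b → MvPolynomial (Fin n) K) ⧸ LinearMap.range f),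
        p.IsHomogeneous l → m ∈ G j → p • m ∈ G (j + l)) ∧
      ∀ a, Submodule.Quotient.mk (Pi.single a 1) ∈ G D := by
  classical
  have hN : ∀ j : ℤ, ∀ v ∈ LinearMap.range f, hv D j b v ∈ LinearMap.range f := by
    rintro j v ⟨w, rfl⟩
    rw [hv_lin f e hf]
    exact ⟨_, rfl⟩
  set q : ℤ → ((Fin b → MvPolynomial (Fin n) K) ⧸ LinearMap.range f) →+ ((Fin b → MvPolynomial (Fin n) K) ⧸ LinearMap.range f) :=
    fun j => qv (LinearMap.range f) D j (hN j) with hq
  have hqm : ∀ j v, q j (Submodule.Quotient.mk v) = Submodule.Quotient.mk (hv D j b v) := fun j v => rfl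
  have hqq : ∀ i j m, q i (q j m) = if i = j then q j m else 0 := by
    intro i j m
    induction m using Submodule.Quotient.induction_on with
    | _ v =>
      rw [hqm, hqm]
      have : hv D i b (hv D j b v) = if i = j then hv D j b v else 0 := by
        ext1 a
        rw [hv_apply, hv_apply, hc_hc]
        by_cases hij : i = j
        · simp [hij, hv_apply]
        · have : i - D ≠ j - D := by omega
          simp [hij, this]
      rw [this]
      by_cases hij : i = j
      · simp [hij]
      · simp [hij]
  let G : ℤ → AddSubgroup ((Fin b → MvPolynomial (Fin n) K) ⧸ LinearMap.range f) := fun j => (q j).range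
  have hG : ∀ j m, m ∈ G j ↔ q j m = m := by
    intro j m
    constructor
    · rintro ⟨x, rfl⟩
      rw [hqq, if_pos rfl]
    · intro h
      exact ⟨m, h⟩
  have hG' : ∀ i j m, m ∈ G j → q i m = if i = j then m else 0 := by
    intro i j m hm
    have h1 := (hG j m).1 hm
    have h2 := hqq i j m
    rw [h1] at h2
    exact h2
  refine ⟨G, ⟨?_, ?_⟩, ?_, ?_⟩
  · rw [injective_iff_map_eq_zero]
    intro x hx
    ext i
    have key : (q i).comp (DirectSum.coeAddMonoidHom G) =
        (G i).subtype.comp (DirectSum.component ℤ ℤ (fun j => G j) i).toAddMonoidHom := by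
      refine DirectSum.addHom_ext fun j y => ?_
      simp only [AddMonoidHom.comp_apply, DirectSum.coeAddMonoidHom_of, AddSubgroup.subtype_apply,
        LinearMap.toAddMonoidHom_coe]
      rw [hG' i j y y.2]
      by_cases hij : i = j
      · subst hij
        rw [if_pos rfl]
        erw [DirectSum.of_eq_same]
      · rw [if_neg hij]
        erw [DirectSum.of_eq_of_ne _ _ _ hij]
        simp
    have h1 := congrArg (fun g => g x) key
    simp only [AddMonoidHom.comp_apply, hx, map_zero] at h1
    have h2 : ((x i : G i) : ((Fin b → MvPolynomial (Fin n) K) ⧸ LinearMap.range f)) = 0 := h1.symm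
    simpa using h2
  · rw [← AddMonoidHom.range_eq_top, eq_top_iff]
    intro m _
    induction m using Submodule.Quotient.induction_on with
    | _ v =>
      have hv1 : v = ∑ a, ∑ l ∈ Finset.range ((v a).totalDegree + 1), Pi.single a (homogeneousComponent l (v a)) := by
        ext1 x
        simp only [Finset.sum_apply, Pi.single_apply]
        rw [Finset.sum_eq_single x]
        · simp [sum_homogeneousComponent]
        · intro y _ hy
          simp [Ne.symm hy]
        · simp
      rw [hv1, ← Submodule.mkQ_apply, map_sum]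
      refine AddSubgroup.sum_mem _ fun a _ => ?_
      rw [map_sum]
      refine AddSubgroup.sum_mem _ fun l _ => ?_
      have hmem : (LinearMap.range f).mkQ (Pi.single a (homogeneousComponent l (v a))) ∈ G (D + l) := by
        rw [hG, Submodule.mkQ_apply, hqm]
        congr 1
        ext1 x
        rw [hv_apply]
        have : (D + l - D : ℤ) = (l : ℤ) := by ring
        rw [this, hc_natCast, Pi.single_apply]
        split_ifs with hx
        · rw [homogeneousComponent_of_mem (homogeneousComponent_mem _ _), if_pos rfl]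
        · simp
      exact ⟨DirectSum.of (fun j => G j) (D + l) ⟨_, hmem⟩, by simp⟩
  · intro l j p m hp hm
    rw [hG] at hm ⊢
    induction m using Submodule.Quotient.induction_on with
    | _ v =>
      rw [← hm, hqm, ← Submodule.Quotient.mk_smul, hqm]
      congr 1
      ext1 x
      rw [hv_apply, Pi.smul_apply, smul_eq_mul, hv_apply]
      have h1 : (j + l - D : ℤ) = (j - D) + l := by ring
      rw [h1, hc_mul l _ _ _ hp, hc_hc, if_pos rfl]
  · intro a
    rw [hG, hqm]
    congr 1
    ext1 x
    rw [hv_apply, sub_self, hc_of_nonneg le_rfl, Pi.single_apply]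
    split_ifs with hx
    · rw [homogeneousComponent_of_mem (n := 0) ((mem_homogeneousSubmodule _ _).2 (isHomogeneous_one _ _))]
      simp
    · simp

end H92I
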